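import Mathlib

set_option autoImplicit false

namespace Pool.Agent.H.MPd417b4

def frc {α : Type} (n : ℕ) (k : ℕ → α) : α := Nat.rec (k 0) (fun m _ => k (Nat.succ m)) n

theorem frc_eq {α : Type} (n : ℕ) (k : ℕ → α) : frc n k = k n := by cases n <;> rfl

def dig (s p : ℕ) : ℕ := s / 16 ^ p % 16

def mapD (g : ℕ → ℕ → ℕ) : ℕ → ℕ → ℕ → ℕ
  | 0, _, _ => 0
  | f + 1, p, s => g p (s % 16) + 16 * mapD g f (p + 1) (s / 16)

def anyD (P : ℕ → Bool) : ℕ → ℕ → Bool
  | 0, _ => false
  | f + 1, s => P (s % 16) || anyD P f (s / 16)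

def lb (p z : ℕ) : ℕ := bif Nat.beq z 0 then p + 1 else z

def lab (s p : ℕ) : ℕ := lb p (dig s p)

def mrg (s v a b : ℕ) : ℕ :=
  mapD (fun p z => bif Nat.beq (lb p z) a then b else bif Nat.beq p v then b else z) 15 0 s

def zer (s i : ℕ) : ℕ := mapD (fun p z => bif Nat.beq p i then 0 else z) 15 0 s

inductive Tr where
  | nil : Tr
  | node : Tr → ℕ → ℕ → ℕ → Tr → Tr

def ins (s N S : ℕ) : Tr → Tr
  | .nil => .node .nil s N S .nil
  | .node l s' N' S' r =>
    bif Nat.blt s s' then .node (ins s N S l) s' N' S' r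
    else bif Nat.beq s s' then frc (N + N') fun x => frc (S + S') fun y => .node l s' x y r
    else .node l s' N' S' (ins s N S r)

def fold {β : Type} (f : ℕ → ℕ → ℕ → β → β) : Tr → β → β
  | .nil, b => b
  | .node l s N S r, b => fold f r (fold f l (f s N S b))

def take (u v s : ℕ) : ℕ :=
  frc (lab s u) fun a => frc (lab s v) fun b =>
    bif Nat.blt a b then mrg s v a b else mrg s u b a

def estep (u v : ℕ) (t : Tr) : Tr :=
  fold (fun s N S acc => bif Nat.beq s (16 ^ 15) || Nat.beq (lab s u) (lab s v) then acc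
    else frc (take u v s) fun s' => frc (S + N) fun y => ins s' N y acc) t t

def dstep (i : ℕ) (t : Tr) : Tr :=
  fold (fun s N S acc => frc (dig s i) fun d =>
    bif Nat.beq d 0 then ins s N S acc
    else frc (zer s i) fun z =>
      bif anyD (fun x => Nat.beq x d) 15 z then ins z N S acc
      else bif Nat.beq d (i + 1) then
        (bif anyD (fun x => !Nat.beq x 0) 15 z then acc else ins (16 ^ 15) N S acc)
      else ins s N S acc) t .nil

def run : List (ℕ × ℕ) → Tr → Tr
  | [], t => t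
  | (u, v) :: R, t => bif Nat.beq u v then run R (dstep u t) else run R (estep u v t)

def ops : List (ℕ × ℕ) :=
  [(0,1),(0,2),(0,3),(0,14),(0,0),(1,2),(1,3),(1,4),(1,1),(2,3),(2,4),(2,2),(3,4),(3,3),(4,5),(4,4),
   (5,6),(5,7),(5,8),(5,5),(6,7),(6,8),(6,9),(6,6),(7,8),(7,9),(7,7),(8,9),(8,8),(9,10),(9,9),
   (10,11),(10,12),(10,13),(10,10),(11,12),(11,13),(11,14),(11,11),(12,13),(12,14),(12,12),
   (13,14),(13,13),(14,14)]

def out : Tr → ℕ × ℕ × ℕ
  | .nil => (0, 0, 0)
  | .node l s N S r =>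
    match out l, out r with
    | (a, b, c), (a', b', c') =>
      bif Nat.beq s 0 then (a + a', b + b', c + c')
      else bif Nat.beq s (16 ^ 15) then (a + a' + N, b + b' + S, c + c') else (0, 0, 1)

end Pool.Agent.H.MPd417b4
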