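import Pool.Agent.H.MP_d417b4_co.A

set_option autoImplicit false
set_option maxHeartbeats 200000

namespace Pool.Agent.H.MPd417b4

open Finset

def MM (lab : ℕ → ℕ) (L : Finset ℕ) (D : Finset (ℕ × ℕ)) : Finset ℕ :=
  L ∪ (D.image (fun e => lab e.1) ∪ D.image (fun e => lab e.2))

theorem mem_MM {lab : ℕ → ℕ} {L : Finset ℕ} {D : Finset (ℕ × ℕ)} {x : ℕ} :
    x ∈ MM lab L D ↔ x ∈ L ∨ ∃ e ∈ D, lab e.1 = x ∨ lab e.2 = x := by
  simp only [MM, mem_union, mem_image]
  constructor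
  · rintro (h | ⟨e, h, k⟩ | ⟨e, h, k⟩)
    · exact Or.inl h
    · exact Or.inr ⟨e, h, Or.inl k⟩
    · exact Or.inr ⟨e, h, Or.inr k⟩
  · rintro (h | ⟨e, h, k | k⟩)
    · exact Or.inl h
    · exact Or.inr (Or.inl ⟨e, h, k⟩)
    · exact Or.inr (Or.inr ⟨e, h, k⟩)

def Cn (lab : ℕ → ℕ) (L : Finset ℕ) (D : Finset (ℕ × ℕ)) : Prop :=
  ∀ c : ℕ → Prop, (∀ e ∈ D, (c (lab e.1) ↔ c (lab e.2))) →
    ∀ x ∈ MM lab L D, ∀ y ∈ MM lab L D, (c x ↔ c y)

def Good (lab : ℕ → ℕ) (L : Finset ℕ) (D : Finset (ℕ × ℕ)) : Prop :=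
  Cn lab L D ∧ (MM lab L D).card = D.card + 1

theorem good_congr {lab lab' : ℕ → ℕ} {L : Finset ℕ} {D : Finset (ℕ × ℕ)}
    (h : ∀ e ∈ D, lab e.1 = lab' e.1 ∧ lab e.2 = lab' e.2) : Good lab L D ↔ Good lab' L D := by
  have e : MM lab L D = MM lab' L D := by
    unfold MM
    rw [image_congr (fun e he => (h e he).1), image_congr (fun e he => (h e he).2)]
  unfold Good Cn
  rw [e]
  refine and_congr (forall_congr' fun c => imp_congr (forall₂_congr fun e he => ?_) Iff.rfl) Iff.rfl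
  rw [(h e he).1, (h e he).2]

def rho (a b z : ℕ) : ℕ := if z = a then b else z

theorem MM_merge {lab : ℕ → ℕ} {L : Finset ℕ} {D : Finset (ℕ × ℕ)} {u v a b : ℕ}
    (h : (lab u = a ∧ lab v = b) ∨ (lab u = b ∧ lab v = a)) :
    MM (fun p => rho a b (lab p)) (insert b (L.image (rho a b))) D =
      (MM lab L (insert (u, v) D)).image (rho a b) := by
  have ra : rho a b a = b := by simp [rho]
  have rb : rho a b b = b := by simp [rho]
  ext x
  simp only [mem_image, mem_MM, mem_insert]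
  constructor
  · rintro ((rfl | ⟨y, hy, rfl⟩) | ⟨e, he, k | k⟩)
    · refine ⟨x, Or.inr ⟨(u, v), Or.inl rfl, ?_⟩, rb⟩
      rcases h with h | h
      · exact Or.inr h.2
      · exact Or.inl h.1
    · exact ⟨y, Or.inl hy, rfl⟩
    · exact ⟨_, Or.inr ⟨e, Or.inr he, Or.inl rfl⟩, k⟩
    · exact ⟨_, Or.inr ⟨e, Or.inr he, Or.inr rfl⟩, k⟩
  · rintro ⟨y, hy | ⟨e, rfl | he, k⟩, rfl⟩
    · exact Or.inl (Or.inr ⟨y, hy, rfl⟩)
    · left; left
      rcases h with ⟨h1, h2⟩ | ⟨h1, h2⟩ <;> rcases k with k | k <;> simp only at k <;>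
        rw [← k] <;> simp only [h1, h2, ra, rb]
    · rcases k with k | k
      · exact Or.inr ⟨e, he, Or.inl (by rw [k])⟩
      · exact Or.inr ⟨e, he, Or.inr (by rw [k])⟩

theorem cn_merge {lab : ℕ → ℕ} {L : Finset ℕ} {D : Finset (ℕ × ℕ)} {u v a b : ℕ}
    (h : (lab u = a ∧ lab v = b) ∨ (lab u = b ∧ lab v = a)) :
    Cn lab L (insert (u, v) D) ↔
      Cn (fun p => rho a b (lab p)) (insert b (L.image (rho a b))) D := by
  have ra : rho a b a = b := by simp [rho]
  have rb : rho a b b = b := by simp [rho]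
  unfold Cn
  rw [MM_merge h]
  constructor
  · intro H c hc x hx y hy
    obtain ⟨x', hx', rfl⟩ := mem_image.1 hx
    obtain ⟨y', hy', rfl⟩ := mem_image.1 hy
    refine H (fun z => c (rho a b z)) ?_ x' hx' y' hy'
    intro e he
    rcases mem_insert.1 he with rfl | he
    · rcases h with ⟨h1, h2⟩ | ⟨h1, h2⟩ <;> simp only [h1, h2, ra, rb]
    · exact hc e he
  · intro H c hc x hx y hy
    have hab : c a ↔ c b := by
      have := hc (u, v) (mem_insert_self _ _)
      rcases h with ⟨h1, h2⟩ | ⟨h1, h2⟩ <;> simp only [h1, h2] at this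
      · exact this
      · exact this.symm
    have hr : ∀ z, c (rho a b z) ↔ c z := by
      intro z
      unfold rho
      split_ifs with hz
      · rw [hz, hab]
      · rfl
    have := H c (fun e he => by rw [hr, hr]; exact hc e (mem_insert_of_mem he))
      _ (mem_image_of_mem _ hx) _ (mem_image_of_mem _ hy)
    rwa [hr, hr] at this

theorem card_rho {M : Finset ℕ} {a b : ℕ} (ha : a ∈ M) (hb : b ∈ M) :
    (M.image (rho a b)).card + (if a = b then 0 else 1) = M.card := by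
  split_ifs with h
  · subst h
    have : M.image (rho a a) = M := by
      have : rho a a = id := by
        funext z; unfold rho; split_ifs with h <;> simp [*]
      rw [this, image_id]
    rw [this]; rfl
  · have : M.image (rho a b) = M.erase a := by
      ext x
      simp only [mem_image, mem_erase, rho]
      constructor
      · rintro ⟨y, hy, rfl⟩
        split_ifs with k
        · exact ⟨fun e => h e.symm, hb⟩
        · exact ⟨k, hy⟩
      · rintro ⟨k, hx⟩
        exact ⟨x, hx, by simp [k]⟩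
    rw [this, card_erase_add_one ha]

theorem cn_card (D : Finset (ℕ × ℕ)) : ∀ (lab : ℕ → ℕ) (L : Finset ℕ), Cn lab L D →
    (MM lab L D).card ≤ D.card + 1 := by
  induction D using Finset.induction_on with
  | empty =>
    intro lab L H
    rw [card_empty, card_le_one]
    intro x hx y hy
    exact ((H (fun z => x = z) (by simp) x hx y hy).1 rfl)
  | insert e D he ih =>
    intro lab L H
    obtain ⟨u, v⟩ := e
    have h : (lab u = lab u ∧ lab v = lab v) ∨ (lab u = lab v ∧ lab v = lab u) := Or.inl ⟨rfl, rfl⟩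
    have h1 := ih _ _ ((cn_merge h).1 H)
    rw [MM_merge h] at h1
    have h2 := card_rho (M := MM lab L (insert (u, v) D)) (a := lab u) (b := lab v)
      (mem_MM.2 (Or.inr ⟨_, mem_insert_self _ _, Or.inl rfl⟩))
      (mem_MM.2 (Or.inr ⟨_, mem_insert_self _ _, Or.inr rfl⟩))
    rw [card_insert_of_notMem he]
    split_ifs at h2 <;> omega

theorem good_insert {lab : ℕ → ℕ} {L : Finset ℕ} {D : Finset (ℕ × ℕ)} {u v a b : ℕ}
    (h : (lab u = a ∧ lab v = b) ∨ (lab u = b ∧ lab v = a)) (he : (u, v) ∉ D) :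
    Good lab L (insert (u, v) D) ↔
      a ≠ b ∧ Good (fun p => rho a b (lab p)) (insert b (L.image (rho a b))) D := by
  have h2 := card_rho (M := MM lab L (insert (u, v) D)) (a := a) (b := b)
    (mem_MM.2 (Or.inr ⟨_, mem_insert_self _ _, h.elim (fun k => Or.inl k.1) fun k => Or.inr k.2⟩))
    (mem_MM.2 (Or.inr ⟨_, mem_insert_self _ _, h.elim (fun k => Or.inr k.2) fun k => Or.inl k.1⟩))
  unfold Good
  rw [cn_merge h, card_insert_of_notMem he]
  constructor
  · rintro ⟨H, k⟩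
    have h1 := cn_card _ _ _ H
    rw [MM_merge h] at h1 ⊢
    split_ifs at h2 with hab
    · omega
    · exact ⟨hab, H, by omega⟩
  · rintro ⟨hab, H, k⟩
    rw [MM_merge h] at k
    rw [if_neg hab] at h2
    exact ⟨H, by omega⟩

theorem good_lone {lab : ℕ → ℕ} {L : Finset ℕ} {D : Finset (ℕ × ℕ)} {d : ℕ} (hd : d ∈ L)
    (h : ∀ e ∈ D, lab e.1 ≠ d ∧ lab e.2 ≠ d) : Good lab L D ↔ D = ∅ ∧ L = {d} := by
  constructor
  · rintro ⟨H, -⟩
    have k : ∀ y ∈ MM lab L D, y = d := fun y hy =>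
      (H (fun z => z = d) (fun e he => by simp [(h e he).1, (h e he).2]) d
        (mem_MM.2 (Or.inl hd)) y hy).1 rfl
    refine ⟨eq_empty_of_forall_notMem fun e he => (h e he).1 (k _ (mem_MM.2 (Or.inr ⟨e, he, Or.inl rfl⟩))), ?_⟩
    exact eq_singleton_iff_unique_mem.2 ⟨hd, fun y hy => k y (mem_MM.2 (Or.inl hy))⟩
  · rintro ⟨rfl, rfl⟩
    refine ⟨fun c _ x hx y hy => ?_, by simp [MM]⟩
    simp only [MM, image_empty, union_empty, mem_singleton] at hx hy
    rw [hx, hy]

theorem dig_zero (s : ℕ) : dig s 0 = s % 16 := by simp [dig]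

theorem dig_succ (s p : ℕ) : dig s (p + 1) = dig (s / 16) p := by
  simp [dig, pow_succ', Nat.div_div_eq_div_mul]

theorem dig_lt (s p : ℕ) : dig s p < 16 := Nat.mod_lt _ (by norm_num)

theorem dig_mapD (g : ℕ → ℕ → ℕ) (hg : ∀ p z, z < 16 → g p z < 16) :
    ∀ f q s p, p < f → dig (mapD g f q s) p = g (q + p) (dig s p) := by
  intro f
  induction f with
  | zero => intro q s p h; omega
  | succ f ih =>
    intro q s p h
    have k := hg q (s % 16) (Nat.mod_lt _ (by norm_num))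
    cases p with
    | zero => rw [dig_zero, dig_zero, mapD, show q + 0 = q from rfl]; omega
    | succ p =>
      rw [dig_succ, dig_succ, mapD, show (g q (s % 16) + 16 * mapD g f (q + 1) (s / 16)) / 16 =
        mapD g f (q + 1) (s / 16) by omega, ih _ _ _ (by omega)]
      congr 1; omega

theorem mapD_lt (g : ℕ → ℕ → ℕ) (hg : ∀ p z, z < 16 → g p z < 16) :
    ∀ f q s, mapD g f q s < 16 ^ f := by
  intro f
  induction f with
  | zero => intro q s; simp [mapD]
  | succ f ih =>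
    intro q s
    have k := hg q (s % 16) (Nat.mod_lt _ (by norm_num))
    have := ih (q + 1) (s / 16)
    rw [mapD, pow_succ]; omega

theorem anyD_iff (P : ℕ → Bool) : ∀ f s, anyD P f s = true ↔ ∃ p < f, P (dig s p) = true := by
  intro f
  induction f with
  | zero => intro s; simp [anyD]
  | succ f ih =>
    intro s
    rw [anyD, Bool.or_eq_true, ih, Nat.exists_lt_succ_left, dig_zero]
    simp only [dig_succ]

def LL (s : ℕ) : Finset ℕ := ((range 15).image (dig s)).erase 0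

theorem mem_LL {s x : ℕ} : x ∈ LL s ↔ x ≠ 0 ∧ ∃ p < 15, dig s p = x := by
  simp [LL]

def GS (s : ℕ) (D : Finset (ℕ × ℕ)) : Prop :=
  if s = 16 ^ 15 then D = ∅ else Good (lab s) (LL s) D

theorem lb_eq (p z : ℕ) : lb p z = if z = 0 then p + 1 else z := by
  unfold lb
  cases z <;> simp [Nat.beq]

theorem beq_ite {α : Type} (a b : ℕ) (x y : α) :
    (bif Nat.beq a b then x else y) = if a = b then x else y := by
  by_cases h : a = b
  · subst h; simp
  · have : Nat.beq a b = false := by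
      cases k : Nat.beq a b
      · rfl
      · exact absurd (Nat.eq_of_beq_eq_true k) h
    simp [this, h]

theorem gs_mrg {s v a b : ℕ} {D : Finset (ℕ × ℕ)} (hv : v < 15) (hb : lab s v = b)
    (hD : ∀ e ∈ D, e.1 < 15 ∧ e.2 < 15) :
    GS (mrg s v a b) D ↔ Good (fun p => rho a b (lab s p)) (insert b ((LL s).image (rho a b))) D := by
  have b0 : b ≠ 0 ∧ b < 16 := by
    have := dig_lt s v
    rw [← hb, lab, lb_eq]; split_ifs <;> omega
  have hg : ∀ p z, z < 16 → (bif Nat.beq (lb p z) a then b else bif Nat.beq p v then b else z) < 16 := by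
    intro p z hz
    rw [beq_ite, beq_ite]; split_ifs <;> omega
  have hd : ∀ p < 15, dig (mrg s v a b) p =
      if lab s p = a then b else if p = v then b else dig s p := by
    intro p hp
    rw [mrg, dig_mapD _ hg _ _ _ _ hp, beq_ite, beq_ite, Nat.zero_add]; rfl
  have hl : ∀ p < 15, lab (mrg s v a b) p = rho a b (lab s p) := by
    intro p hp
    rw [lab, hd p hp, rho]
    split_ifs with h1 h2
    · rw [lb_eq, if_neg b0.1]
    · rw [lb_eq, if_neg b0.1, h2, hb]
    · rfl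
  have hL : LL (mrg s v a b) = insert b ((LL s).image (rho a b)) := by
    ext x
    simp only [mem_insert, mem_image, mem_LL]
    constructor
    · rintro ⟨x0, p, hp, k⟩
      rw [hd p hp] at k
      split_ifs at k with h1 h2
      · exact Or.inl k.symm
      · exact Or.inl k.symm
      · refine Or.inr ⟨x, ⟨x0, p, hp, k⟩, ?_⟩
        rw [lab, lb_eq, k, if_neg x0] at h1
        simp [rho, h1]
    · rintro (rfl | ⟨y, ⟨y0, p, hp, k⟩, rfl⟩)
      · refine ⟨b0.1, v, hv, ?_⟩
        rw [hd v hv]; simp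
      · have e : lab s p = y := by rw [lab, lb_eq, k, if_neg y0]
        refine ⟨by unfold rho; split_ifs; exacts [b0.1, y0], p, hp, ?_⟩
        rw [hd p hp, e, rho]
        split_ifs with h1 h2
        · rfl
        · rw [← e, h2, hb]
        · exact k
  have := mapD_lt _ hg 15 0 s
  unfold GS
  rw [if_neg (by unfold mrg; omega), hL]
  exact good_congr fun e he => ⟨hl _ (hD e he).1, hl _ (hD e he).2⟩

theorem gs_take {s u v : ℕ} {D : Finset (ℕ × ℕ)} (hu : u < 15) (hv : v < 15)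
    (hD : ∀ e ∈ D, e.1 < 15 ∧ e.2 < 15) (he : (u, v) ∉ D) :
    GS s (insert (u, v) D) ↔ ¬ (s = 16 ^ 15 ∨ lab s u = lab s v) ∧ GS (take u v s) D := by
  by_cases hs : s = 16 ^ 15
  · simp [GS, hs]
  have e : GS s (insert (u, v) D) ↔ Good (lab s) (LL s) (insert (u, v) D) := by
    unfold GS; rw [if_neg hs]
  rw [e, take, frc_eq, frc_eq]
  cases Nat.blt (lab s u) (lab s v)
  · rw [cond_false, gs_mrg hu rfl hD, good_insert (Or.inr ⟨rfl, rfl⟩) he]
    exact and_congr_left fun _ => ⟨fun h k => k.elim hs fun m => h m.symm, fun h k => h (Or.inr k.symm)⟩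
  · rw [cond_true, gs_mrg hv rfl hD, good_insert (Or.inl ⟨rfl, rfl⟩) he]
    exact and_congr_left fun _ => ⟨fun h k => k.elim hs h, fun h k => h (Or.inr k)⟩

theorem dig_zer (s i p : ℕ) (hp : p < 15) : dig (zer s i) p = if p = i then 0 else dig s p := by
  rw [zer, dig_mapD _ _ _ _ _ _ hp, beq_ite, Nat.zero_add]
  intro p z hz
  rw [beq_ite]; split_ifs <;> omega

theorem zer_ne (s i : ℕ) : zer s i ≠ 16 ^ 15 := by
  refine (mapD_lt _ ?_ 15 0 s).ne
  intro p z hz
  rw [beq_ite]; split_ifs <;> omega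

theorem dig_top : ∀ i < 15, dig (16 ^ 15) i = 0 := by decide +kernel

theorem gs_partner {s i : ℕ} {D : Finset (ℕ × ℕ)} (hi : i < 15) (h0 : dig s i ≠ 0)
    (hD : ∀ e ∈ D, (e.1 < 15 ∧ e.2 < 15) ∧ e.1 ≠ i ∧ e.2 ≠ i)
    (h : anyD (fun x => Nat.beq x (dig s i)) 15 (zer s i) = true) : GS s D ↔ GS (zer s i) D := by
  have hs : s ≠ 16 ^ 15 := fun e => h0 (by rw [e]; exact dig_top i hi)
  obtain ⟨j, hj, k⟩ := (anyD_iff _ _ _).1 h
  have k := Nat.eq_of_beq_eq_true k
  have hL : LL s = LL (zer s i) := by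
    ext x
    simp only [mem_LL]
    refine and_congr_right fun x0 => ⟨?_, ?_⟩
    · rintro ⟨p, hp, rfl⟩
      by_cases e : p = i
      · exact ⟨j, hj, by rw [e]; exact k⟩
      · exact ⟨p, hp, by rw [dig_zer _ _ _ hp, if_neg e]⟩
    · rintro ⟨p, hp, rfl⟩
      rw [dig_zer _ _ _ hp] at x0 ⊢
      split_ifs at x0 ⊢
      · exact absurd rfl x0
      · exact ⟨p, hp, rfl⟩
  unfold GS
  rw [if_neg hs, if_neg (zer_ne s i), hL]
  refine good_congr fun e he => ?_
  obtain ⟨⟨a1, a2⟩, a3, a4⟩ := hD e he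
  simp only [lab, dig_zer _ _ _ a1, dig_zer _ _ _ a2, if_neg a3, if_neg a4, and_self]

theorem gs_lone {s i : ℕ} {D : Finset (ℕ × ℕ)} (hi : i < 15) (h0 : dig s i = i + 1)
    (hD : ∀ e ∈ D, (e.1 < 15 ∧ e.2 < 15) ∧ e.1 ≠ i ∧ e.2 ≠ i)
    (h : ¬ anyD (fun x => Nat.beq x (dig s i)) 15 (zer s i) = true) :
    GS s D ↔ ¬ anyD (fun x => !Nat.beq x 0) 15 (zer s i) = true ∧ GS (16 ^ 15) D := by
  have hs : s ≠ 16 ^ 15 := fun e => by have := dig_top i hi; rw [← e] at this; omega
  rw [anyD_iff] at h ⊢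
  have k : ∀ p < 15, p ≠ i → dig s p ≠ i + 1 := fun p hp e m =>
    h ⟨p, hp, by rw [dig_zer _ _ _ hp, if_neg e, m, h0]; simp⟩
  have k2 : ∀ p < 15, p ≠ i → lab s p ≠ i + 1 := fun p hp e => by
    have := k p hp e
    rw [lab, lb_eq]; split_ifs <;> omega
  unfold GS
  rw [if_neg hs, if_pos rfl, good_lone (d := i + 1) (mem_LL.2 ⟨by omega, i, hi, h0⟩)
    (fun e he => ⟨k2 _ (hD e he).1.1 (hD e he).2.1, k2 _ (hD e he).1.2 (hD e he).2.2⟩), and_comm]
  refine and_congr_left fun _ => ⟨?_, ?_⟩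
  · rintro e ⟨p, hp, m⟩
    rw [dig_zer _ _ _ hp] at m
    split_ifs at m with e2
    · simp at m
    · have m2 : dig s p ≠ 0 := fun z => by rw [z] at m; simp at m
      have : dig s p ∈ LL s := mem_LL.2 ⟨m2, p, hp, rfl⟩
      rw [e, mem_singleton] at this
      exact k p hp e2 this
  · intro m
    refine eq_singleton_iff_unique_mem.2 ⟨mem_LL.2 ⟨by omega, i, hi, h0⟩, fun y hy => ?_⟩
    obtain ⟨y0, p, hp, rfl⟩ := mem_LL.1 hy
    by_cases e : p = i
    · rw [e, h0]
    · refine absurd ⟨p, hp, ?_⟩ m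
      rw [dig_zer _ _ _ hp, if_neg e]
      obtain ⟨t, ht⟩ := Nat.exists_eq_succ_of_ne_zero y0
      rw [ht]; rfl

end Pool.Agent.H.MPd417b4
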