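import Pool.Agent.H.MP_d417b4_co.B

set_option autoImplicit false
set_option maxHeartbeats 200000

namespace Pool.Agent.H.MPd417b4

open Finset

open Classical in
noncomputable def val (l m : ℕ) (R : Finset (ℕ × ℕ)) (s N S : ℕ) : ℕ :=
  ∑ D ∈ R.powerset, if GS s D then l * N + m * (S + N * D.card) else 0

theorem val_add (l m : ℕ) (R : Finset (ℕ × ℕ)) (s N S N' S' : ℕ) :
    val l m R s (N + N') (S + S') = val l m R s N S + val l m R s N' S' := by
  unfold val
  rw [← sum_add_distrib]
  refine sum_congr rfl fun D _ => ?_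
  split_ifs
  · ring
  · rfl

theorem val_congr (l m : ℕ) (R : Finset (ℕ × ℕ)) (s s' N S : ℕ)
    (h : ∀ D ⊆ R, GS s D ↔ GS s' D) : val l m R s N S = val l m R s' N S := by
  unfold val
  refine sum_congr rfl fun D hD => ?_
  have := h D (mem_powerset.1 hD)
  by_cases k : GS s D
  · rw [if_pos k, if_pos (this.1 k)]
  · rw [if_neg k, if_neg fun e => k (this.2 e)]

theorem val_zero (l m : ℕ) (R : Finset (ℕ × ℕ)) (s N S : ℕ)
    (h : ∀ D ⊆ R, ¬ GS s D) : val l m R s N S = 0 :=
  sum_eq_zero fun D hD => if_neg (h D (mem_powerset.1 hD))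

theorem val_insert (l m : ℕ) (R : Finset (ℕ × ℕ)) (u v s N S : ℕ) (hu : u < 15) (hv : v < 15)
    (hR : ∀ e ∈ R, e.1 < 15 ∧ e.2 < 15) (he : (u, v) ∉ R) :
    val l m (insert (u, v) R) s N S = val l m R s N S +
      if s = 16 ^ 15 ∨ lab s u = lab s v then 0 else val l m R (take u v s) N (S + N) := by
  unfold val
  rw [sum_powerset_insert he]
  congr 1
  have k : ∀ D ∈ R.powerset, (GS s (insert (u, v) D) ↔
      ¬ (s = 16 ^ 15 ∨ lab s u = lab s v) ∧ GS (take u v s) D) := fun D hD =>
    gs_take hu hv (fun e h => hR e (mem_powerset.1 hD h)) (fun h => he (mem_powerset.1 hD h))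
  by_cases h : s = 16 ^ 15 ∨ lab s u = lab s v
  · rw [if_pos h]
    exact sum_eq_zero fun D hD => if_neg fun g => ((k D hD).1 g).1 h
  · rw [if_neg h]
    refine sum_congr rfl fun D hD => ?_
    by_cases g : GS (take u v s) D
    · rw [if_pos g, if_pos ((k D hD).2 ⟨h, g⟩),
        card_insert_of_notMem (fun h => he (mem_powerset.1 hD h))]
      ring
    · rw [if_neg g, if_neg fun g' => g ((k D hD).1 g').2]

def tsum (f : ℕ → ℕ → ℕ → ℕ) : Tr → ℕ
  | .nil => 0
  | .node l s N S r => tsum f l + f s N S + tsum f r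

theorem tsum_ins (f : ℕ → ℕ → ℕ → ℕ)
    (hf : ∀ s N S N' S', f s (N + N') (S + S') = f s N S + f s N' S') (s N S : ℕ) :
    ∀ t, tsum f (ins s N S t) = f s N S + tsum f t := by
  intro t
  induction t with
  | nil => simp [ins, tsum]
  | node l s' N' S' r ihl ihr =>
    rw [ins]
    cases Nat.blt s s'
    · rw [cond_false, beq_ite]
      split_ifs with h
      · rw [frc_eq, frc_eq, tsum, tsum, hf, h]; omega
      · rw [tsum, tsum, ihr]; omega
    · rw [cond_true, tsum, tsum, ihl]; omega

theorem tsum_fold (f g : ℕ → ℕ → ℕ → ℕ) (F : ℕ → ℕ → ℕ → Tr → Tr)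
    (h : ∀ s N S acc, tsum f (F s N S acc) = g s N S + tsum f acc) :
    ∀ t acc, tsum f (fold F t acc) = tsum g t + tsum f acc := by
  intro t
  induction t with
  | nil => intro acc; simp [fold, tsum]
  | node l s N S r ihl ihr => intro acc; rw [fold, ihr, ihl, h, tsum]; omega

theorem tsum_add (f g h : ℕ → ℕ → ℕ → ℕ) (e : ∀ s N S, h s N S = f s N S + g s N S) :
    ∀ t, tsum h t = tsum f t + tsum g t := by
  intro t
  induction t with
  | nil => rfl
  | node l s N S r ihl ihr => rw [tsum, tsum, tsum, ihl, ihr, e]; omega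

theorem estep_ok (l m : ℕ) (R : Finset (ℕ × ℕ)) (u v : ℕ) (hu : u < 15) (hv : v < 15)
    (hR : ∀ e ∈ R, e.1 < 15 ∧ e.2 < 15) (he : (u, v) ∉ R) (t : Tr) :
    tsum (val l m (insert (u, v) R)) t = tsum (val l m R) (estep u v t) := by
  rw [estep, tsum_fold (val l m R) (fun s N S => if s = 16 ^ 15 ∨ lab s u = lab s v then 0
    else val l m R (take u v s) N (S + N)), add_comm]
  · exact tsum_add _ _ _ (fun s N S => val_insert l m R u v s N S hu hv hR he) t
  · intro s N S acc
    by_cases h : s = 16 ^ 15 ∨ lab s u = lab s v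
    · have : (Nat.beq s (16 ^ 15) || Nat.beq (lab s u) (lab s v)) = true := by
        rw [Bool.or_eq_true, Nat.beq_eq, Nat.beq_eq]; exact h
      rw [this, cond_true, if_pos h, Nat.zero_add]
    · have : (Nat.beq s (16 ^ 15) || Nat.beq (lab s u) (lab s v)) = false := by
        rw [← Bool.not_eq_true, Bool.or_eq_true, Nat.beq_eq, Nat.beq_eq]; exact h
      rw [this, cond_false, if_neg h, frc_eq, frc_eq, tsum_ins _ (val_add l m R)]

theorem dstep_ok (l m : ℕ) (R : Finset (ℕ × ℕ)) (i : ℕ) (hi : i < 15)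
    (hR : ∀ e ∈ R, (e.1 < 15 ∧ e.2 < 15) ∧ e.1 ≠ i ∧ e.2 ≠ i) (t : Tr) :
    tsum (val l m R) t = tsum (val l m R) (dstep i t) := by
  rw [dstep, tsum_fold (val l m R) (val l m R)]
  · rfl
  · intro s N S acc
    rw [frc_eq, beq_ite]
    by_cases h0 : dig s i = 0
    · rw [if_pos h0, tsum_ins _ (val_add l m R)]
    rw [if_neg h0, frc_eq]
    cases h1 : anyD (fun x => Nat.beq x (dig s i)) 15 (zer s i)
    · rw [cond_false, beq_ite]
      by_cases h2 : dig s i = i + 1
      · rw [if_pos h2]
        have k := fun D (hD : D ⊆ R) => gs_lone (D := D) hi h2 (fun e he => hR e (hD he))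
          (by rw [h1]; exact Bool.false_ne_true)
        cases h3 : anyD (fun x => !Nat.beq x 0) 15 (zer s i)
        · rw [cond_false, tsum_ins _ (val_add l m R), val_congr l m R s (16 ^ 15)]
          intro D hD
          rw [k D hD, h3]
          exact ⟨fun h => h.2, fun h => ⟨Bool.false_ne_true, h⟩⟩
        · rw [cond_true, val_zero, Nat.zero_add]
          intro D hD g
          exact ((k D hD).1 g).1 h3
      · rw [if_neg h2, tsum_ins _ (val_add l m R)]
    · rw [cond_true, tsum_ins _ (val_add l m R), val_congr l m R s (zer s i)]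
      exact fun D hD => gs_partner hi h0 (fun e he => hR e (hD he)) h1

def rem : List (ℕ × ℕ) → Finset (ℕ × ℕ)
  | [] => ∅
  | (u, v) :: R => if u = v then rem R else insert (u, v) (rem R)

def okR : List (ℕ × ℕ) → Prop
  | [] => True
  | (u, v) :: R => u < 15 ∧ v < 15 ∧ (∀ e ∈ rem R, e.1 < 15 ∧ e.2 < 15) ∧
      (u = v → ∀ e ∈ rem R, e.1 ≠ u ∧ e.2 ≠ u) ∧ (u, v) ∉ rem R ∧ okR R

instance : ∀ R, Decidable (okR R)
  | [] => isTrue trivial
  | (u, v) :: R => by
    unfold okR
    have := instDecidableOkR R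
    infer_instance

theorem run_ok (l m : ℕ) : ∀ R, okR R → ∀ t,
    tsum (val l m (rem R)) t = tsum (val l m ∅) (run R t) := by
  intro R
  induction R with
  | nil => intro _ t; rfl
  | cons e R ih =>
    obtain ⟨u, v⟩ := e
    rintro ⟨h1, h2, h3, h4, h5, h6⟩ t
    rw [run, rem, beq_ite]
    split_ifs with h
    · rw [← ih h6, ← dstep_ok l m _ u h1 fun e he => ⟨h3 e he, h4 h e he⟩]
    · rw [← ih h6, estep_ok l m _ u v h1 h2 h3 h5]

theorem LL_zero : LL 0 = ∅ := by decide +kernel

theorem lab_zero (p : ℕ) : lab 0 p = p + 1 := by simp [lab, lb_eq, dig]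

theorem gs_zero (D : Finset (ℕ × ℕ)) : GS 0 D ↔ Good (fun p => p + 1) ∅ D := by
  unfold GS
  rw [if_neg (by norm_num), LL_zero, show lab 0 = fun p => p + 1 from funext lab_zero]

theorem out_ok (l m : ℕ) : ∀ t, (out t).2.2 = 0 →
    tsum (val l m ∅) t = l * (out t).1 + m * (out t).2.1 := by
  intro t
  induction t with
  | nil => intro _; rfl
  | node a s N S r iha ihr =>
    rw [out, tsum]
    generalize out a = x at iha ⊢
    generalize out r = y at ihr ⊢
    obtain ⟨x1, x2, x3⟩ := x
    obtain ⟨y1, y2, y3⟩ := y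
    simp only [beq_ite] at iha ihr ⊢
    split_ifs with h1 h2
    · intro h
      simp only at h ⊢
      rw [iha (by omega), ihr (by omega), h1, val_zero]
      · ring
      · intro D hD g
        rw [subset_empty.1 hD, gs_zero] at g
        have := g.2
        simp [MM] at this
    · intro h
      simp only at h ⊢
      have : val l m ∅ s N S = l * N + m * S := by
        rw [val, powerset_empty, sum_singleton, if_pos (by unfold GS; rw [if_pos h2])]
        simp
      rw [iha (by omega), ihr (by omega), this]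
      ring
    · intro h
      simp at h

theorem ok_ops : okR ops := by decide +kernel

theorem val_ops (l m s N S a b : ℕ) (R : List (ℕ × ℕ)) (hR : okR R)
    (h : out (run R (ins s N S .nil)) = (a, b, 0)) :
    val l m (rem R) s N S = l * a + m * b := by
  have h1 := run_ok l m R hR (ins s N S .nil)
  rw [out_ok l m _ (by rw [h]), h, tsum_ins _ (val_add l m _), tsum, Nat.add_zero] at h1
  exact h1

end Pool.Agent.H.MPd417b4
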