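import Pool.Agent.H.MP_d417b4_co.C

set_option autoImplicit false
set_option maxHeartbeats 400000

namespace Pool.Agent.H.MPd417b4

open Finset SimpleGraph

noncomputable def sk {V : Type} (G : SimpleGraph V) (k : ℕ) : ℕ :=
  {T : G.Subgraph | T.coe.IsTree ∧ T.verts.ncard = k}.ncard

theorem sk_le {V W : Type} [Finite W] {G : SimpleGraph V} {H : SimpleGraph W} (f : G ≃g H) (k : ℕ) :
    sk G k ≤ sk H k := by
  refine Set.ncard_le_ncard_of_injOn (fun T => T.map f.toHom) ?_ ?_ (Set.toFinite _)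
  · rintro T ⟨h1, h2⟩
    refine ⟨(f.toCopy.isoSubgraphMap T).isTree_iff.1 h1, ?_⟩
    rw [Subgraph.map_verts, ← h2]
    exact Set.ncard_image_of_injective _ f.injective
  · intro T _ T' _ h
    have h1 : (T.map f.toHom).verts = (T'.map f.toHom).verts := congrArg _ h
    have key : ∀ (T : G.Subgraph) a b, (T.map f.toHom).Adj (f a) (f b) ↔ T.Adj a b := by
      intro T a b
      constructor
      · rintro ⟨x, y, k, e1, e2⟩
        rw [← f.injective e1, ← f.injective e2]; exact k
      · exact fun k => ⟨a, b, k, rfl, rfl⟩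
    ext a b
    · rw [Subgraph.map_verts, Subgraph.map_verts] at h1
      rw [f.injective.image_injective h1]
    · rw [← key, ← key]
      simp only at h
      rw [h]

theorem sk_iso {V W : Type} [Finite V] [Finite W] {G : SimpleGraph V} {H : SimpleGraph W}
    (f : G ≃g H) (k : ℕ) : sk G k = sk H k := le_antisymm (sk_le f k) (sk_le f.symm k)

theorem sk_one (G : SimpleGraph (Fin 15)) : sk G 1 = 15 := by
  have : {T : G.Subgraph | T.coe.IsTree ∧ T.verts.ncard = 1} = Set.range G.singletonSubgraph := by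
    ext T
    constructor
    · rintro ⟨-, h⟩
      obtain ⟨v, hv⟩ := Set.ncard_eq_one.1 h
      exact ⟨v, ((eq_singletonSubgraph_iff_verts_eq T).2 hv).symm⟩
    · rintro ⟨v, rfl⟩
      refine ⟨?_, by simp⟩
      have : Subsingleton (G.singletonSubgraph v).verts :=
        ⟨fun a b => Subtype.ext (a.2.trans b.2.symm)⟩
      have : Nonempty (G.singletonSubgraph v).verts := ⟨⟨v, rfl⟩⟩
      exact IsTree.of_subsingleton
  rw [sk, this, Set.ncard_range_of_injective]
  · simp
  · intro a b h
    have : ({a} : Set (Fin 15)) = {b} := congrArg Subgraph.verts h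
    exact Set.singleton_injective this

def gr (E : Finset (ℕ × ℕ)) : SimpleGraph (Fin 15) where
  Adj a b := a ≠ b ∧ ((a.val, b.val) ∈ E ∨ (b.val, a.val) ∈ E)
  symm := ⟨fun _ _ h => ⟨h.1.symm, h.2.symm⟩⟩
  loopless := ⟨fun _ h => h.1 rfl⟩

def sub (E D : Finset (ℕ × ℕ)) : (gr E).Subgraph where
  verts := {a | ∃ e ∈ D, e.1 = a.val ∨ e.2 = a.val}
  Adj a b := (gr E).Adj a b ∧ ((a.val, b.val) ∈ D ∨ (b.val, a.val) ∈ D)
  adj_sub h := h.1
  edge_vert h := h.2.elim (fun k => ⟨_, k, Or.inl rfl⟩) fun k => ⟨_, k, Or.inr rfl⟩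
  symm := ⟨fun _ _ h => ⟨h.1.symm, h.2.symm⟩⟩

def fn (x : ℕ) : Fin 15 := ⟨x % 15, Nat.mod_lt _ (by norm_num)⟩

theorem fn_val {x : ℕ} (h : x < 15) : (fn x).val = x := Nat.mod_eq_of_lt h

theorem fn_fin (a : Fin 15) : fn a.val = a := Fin.ext (fn_val a.2)

variable {E D : Finset (ℕ × ℕ)}

theorem sub_adj (hE : ∀ e ∈ E, e.1 < e.2 ∧ e.2 < 15) (hD : D ⊆ E) {e : ℕ × ℕ} (he : e ∈ E) :
    (sub E D).Adj (fn e.1) (fn e.2) ↔ e ∈ D := by
  obtain ⟨h1, h2⟩ := hE e he
  have a1 := fn_val (h1.trans h2)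
  have a2 := fn_val h2
  constructor
  · rintro ⟨-, k | k⟩
    · rwa [a1, a2] at k
    · rw [a1, a2] at k
      have := (hE _ (hD k)).1
      simp only at this
      omega
  · intro k
    refine ⟨⟨fun m => ?_, Or.inl ?_⟩, Or.inl ?_⟩
    · have := congrArg Fin.val m
      omega
    · rwa [a1, a2]
    · rwa [a1, a2]

theorem mm_eq (hE : ∀ e ∈ E, e.1 < e.2 ∧ e.2 < 15) (hD : D ⊆ E) :
    (MM (fun p => p + 1) ∅ D : Set ℕ) = (fun a : Fin 15 => a.val + 1) '' (sub E D).verts := by
  ext x
  simp only [mem_coe, mem_MM, notMem_empty, false_or, Set.mem_image]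
  constructor
  · rintro ⟨e, he, k | k⟩
    · have := hE e (hD he)
      exact ⟨⟨e.1, by omega⟩, ⟨e, he, Or.inl rfl⟩, k⟩
    · exact ⟨⟨e.2, (hE e (hD he)).2⟩, ⟨e, he, Or.inr rfl⟩, k⟩
  · rintro ⟨a, ⟨e, he, k | k⟩, rfl⟩
    · exact ⟨e, he, Or.inl (by rw [k])⟩
    · exact ⟨e, he, Or.inr (by rw [k])⟩

theorem verts_card (hE : ∀ e ∈ E, e.1 < e.2 ∧ e.2 < 15) (hD : D ⊆ E) :
    (sub E D).verts.ncard = (MM (fun p => p + 1) ∅ D).card := by
  rw [← Set.ncard_coe_finset, mm_eq hE hD, Set.ncard_image_of_injective]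
  exact fun a b h => Fin.ext (by simpa using h)

theorem edges_card (hE : ∀ e ∈ E, e.1 < e.2 ∧ e.2 < 15) (hD : D ⊆ E) :
    Nat.card (sub E D).coe.edgeSet = D.card := by
  have e : (sub E D).edgeSet = (fun e : ℕ × ℕ => s(fn e.1, fn e.2)) '' D := by
    ext z
    induction z using Sym2.ind with
    | _ a b =>
      rw [Subgraph.mem_edgeSet]
      constructor
      · rintro ⟨-, k | k⟩
        · exact ⟨_, k, by simp only [fn_fin]⟩
        · exact ⟨_, k, by simp only [fn_fin]; exact Sym2.eq_swap⟩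
      · rintro ⟨e, he, k⟩
        rw [← Subgraph.mem_edgeSet, ← k, Subgraph.mem_edgeSet]
        exact (sub_adj hE hD (hD he)).2 he
  rw [Nat.card_coe_set_eq, ← Set.ncard_image_of_injective _
    (Sym2.map.injective Subtype.val_injective), Subgraph.image_coe_edgeSet_coe, e,
    Set.ncard_image_of_injOn, Set.ncard_coe_finset]
  rintro ⟨a, b⟩ h ⟨c, d⟩ h' k
  have h1 := hE _ (hD h)
  have h2 := hE _ (hD h')
  simp only [Sym2.eq_iff, Fin.ext_iff, fn] at k h1 h2
  have : a = c ∧ b = d := by omega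
  rw [this.1, this.2]

theorem tree_iff (hE : ∀ e ∈ E, e.1 < e.2 ∧ e.2 < 15) (hD : D ⊆ E) :
    (sub E D).coe.IsTree ↔ Good (fun p => p + 1) ∅ D := by
  rw [isTree_iff_connected_and_card, edges_card hE hD, Nat.card_coe_set_eq, verts_card hE hD, Good,
    eq_comm]
  refine and_congr_left fun hc => ⟨?_, ?_⟩
  · intro H c hc x hx y hy
    rw [← mem_coe, mm_eq hE hD] at hx hy
    obtain ⟨a, ha, rfl⟩ := hx
    obtain ⟨b, hb, rfl⟩ := hy
    have key : ∀ a b : (sub E D).verts, (sub E D).coe.Reachable a b →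
        (c (a.val.val + 1) ↔ c (b.val.val + 1)) := by
      intro a b h
      rw [reachable_iff_reflTransGen] at h
      induction h with
      | refl => rfl
      | tail _ k ih =>
        rw [ih]
        rcases k.2 with k | k
        · exact hc _ k
        · exact (hc _ k).symm
    exact key ⟨a, ha⟩ ⟨b, hb⟩ (H.preconnected _ _)
  · intro H
    have : Nonempty (sub E D).verts := by
      rw [← verts_card hE hD] at hc
      exact (Set.nonempty_of_ncard_ne_zero (by omega)).to_subtype
    refine ⟨fun a b => ?_⟩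
    have m : ∀ a : (sub E D).verts, a.val.val + 1 ∈ MM (fun p => p + 1) ∅ D := fun a => by
      rw [← mem_coe, mm_eq hE hD]; exact ⟨a, a.2, rfl⟩
    have := H (fun z => ∃ w : (sub E D).verts, w.val.val + 1 = z ∧ (sub E D).coe.Reachable a w)
      ?_ _ (m a) _ (m b)
    · obtain ⟨w, k, r⟩ := this.1 ⟨a, rfl, Reachable.refl _⟩
      have : w = b := Subtype.ext (Fin.ext (by omega))
      rwa [this] at r
    · intro e he
      have ad := (sub_adj hE hD (hD he)).2 he
      obtain ⟨h1, h2⟩ := hE e (hD he)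
      have a1 := fn_val (h1.trans h2)
      have a2 := fn_val h2
      have ad' : (sub E D).coe.Adj ⟨fn e.1, ad.fst_mem⟩ ⟨fn e.2, ad.snd_mem⟩ := ad
      constructor
      · rintro ⟨w, k, r⟩
        have : w = ⟨fn e.1, ad.fst_mem⟩ := Subtype.ext (Fin.ext (by simp only at k ⊢; omega))
        rw [this] at r
        exact ⟨_, by simp only [a2], r.trans ad'.reachable⟩
      · rintro ⟨w, k, r⟩
        have : w = ⟨fn e.2, ad.snd_mem⟩ := Subtype.ext (Fin.ext (by simp only at k ⊢; omega))
        rw [this] at r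
        exact ⟨_, by simp only [a1], r.trans ad'.symm.reachable⟩

open Classical in
theorem sk_eq (hE : ∀ e ∈ E, e.1 < e.2 ∧ e.2 < 15) (k : ℕ) (hk : 2 ≤ k) :
    sk (gr E) k = ((E.powerset.filter (GS 0)).filter (fun D => D.card + 1 = k)).card := by
  rw [← Set.ncard_coe_finset, ← Set.ncard_image_of_injOn (f := sub E), sk]
  · congr 1
    ext T
    simp only [Set.mem_setOf_eq, Set.mem_image, mem_coe, mem_filter, mem_powerset, gs_zero]
    constructor
    · rintro ⟨h1, h2⟩
      have hD : E.filter (fun e => T.Adj (fn e.1) (fn e.2)) ⊆ E := filter_subset _ _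
      have adj : ∀ a b, (sub E (E.filter (fun e => T.Adj (fn e.1) (fn e.2)))).Adj a b ↔
          T.Adj a b := by
        intro a b
        constructor
        · rintro ⟨-, m | m⟩
          · simpa only [fn_fin] using (mem_filter.1 m).2
          · simpa only [fn_fin] using (mem_filter.1 m).2.symm
        · intro m
          refine ⟨T.adj_sub m, (T.adj_sub m).2.imp (fun z => mem_filter.2 ⟨z, ?_⟩)
            fun z => mem_filter.2 ⟨z, ?_⟩⟩
          · simpa only [fn_fin] using m
          · simpa only [fn_fin] using m.symm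
      have e : sub E (E.filter (fun e => T.Adj (fn e.1) (fn e.2))) = T := by
        ext a b
        · constructor
          · rintro ⟨e, he, m | m⟩
            · have := (mem_filter.1 he).2.fst_mem
              rwa [m, fn_fin] at this
            · have := (mem_filter.1 he).2.snd_mem
              rwa [m, fn_fin] at this
          · intro ha
            have : Nontrivial T.verts := by
              rw [Set.nontrivial_coe_sort, ← Set.one_lt_ncard_iff_nontrivial]; omega
            obtain ⟨b, hb⟩ := h1.connected.preconnected.exists_adj_of_nontrivial ⟨a, ha⟩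
            exact ((adj a b).2 hb).fst_mem
        · exact adj a b
      have g := (tree_iff hE hD).1 (by rw [e]; exact h1)
      refine ⟨_, ⟨⟨hD, g⟩, ?_⟩, e⟩
      rw [← g.2, ← verts_card hE hD, e, h2]
    · rintro ⟨D, ⟨⟨hD, g⟩, m⟩, rfl⟩
      exact ⟨(tree_iff hE hD).2 g, by rw [verts_card hE hD, g.2, m]⟩
  · intro D h D' h' e
    have hD := mem_powerset.1 (mem_filter.1 (mem_filter.1 h).1).1
    have hD' := mem_powerset.1 (mem_filter.1 (mem_filter.1 h').1).1
    ext z
    constructor
    · intro m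
      rw [← sub_adj hE hD' (hD m), ← e, sub_adj hE hD (hD m)]; exact m
    · intro m
      rw [← sub_adj hE hD (hD' m), e, sub_adj hE hD' (hD' m)]; exact m

theorem count (hE : ∀ e ∈ E, e.1 < e.2 ∧ e.2 < 15) (l m : ℕ) :
    ∑ k ∈ Icc 1 15, (l + m * k) * sk (gr E) k = 15 * (l + m) + val l m E 0 1 1 := by
  classical
  rw [show Icc 1 15 = insert 1 (Icc 2 15) by decide, sum_insert (by decide), sk_one, val,
    ← sum_filter, ← sum_fiberwise_of_maps_to (t := Icc 2 15) (g := fun D : Finset (ℕ × ℕ) => D.card + 1)]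
  · congr 1
    · ring
    · refine sum_congr rfl fun k hk => ?_
      rw [sk_eq hE k (mem_Icc.1 hk).1, mul_comm, ← smul_eq_mul, ← sum_const]
      refine sum_congr (by congr) fun D hD => ?_
      rw [← (mem_filter.1 hD).2]; ring
  · intro D hD
    obtain ⟨h1, h2⟩ := mem_filter.1 hD
    have h3 := ((gs_zero D).1 h2).2
    have h4 := verts_card hE (mem_powerset.1 h1)
    have h5 : (sub E D).verts.ncard ≤ 15 := by
      simpa using Set.ncard_le_card (sub E D).verts
    have h6 : D.card ≠ 0 := fun z => by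
      rw [card_eq_zero.1 z] at h3
      simp [MM] at h3
    rw [mem_Icc]; omega

end Pool.Agent.H.MPd417b4
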