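import Pool.Agent.H.MP_d417b4_co.A

set_option autoImplicit false

namespace Pool.Agent.H.MPd417b4

theorem k0 : out (run ops (ins 0 1 1 .nil)) = (7831413, 106725783, 0) := by decide +kernel

theorem k04 : out (run ops (ins (take 0 4 0) 1 2 .nil)) = (4914432, 66649680, 0) := by decide +kernel

theorem k05 : out (run ops (ins (take 0 5 0) 1 2 .nil)) = (10001736, 134906120, 0) := by decide +kernel

theorem k06 : out (run ops (ins (take 0 6 0) 1 2 .nil)) = (11679610, 157762002, 0) := by decide +kernel

theorem k09 : out (run ops (ins (take 0 9 0) 1 2 .nil)) = (11587640, 155796410, 0) := by decide +kernel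

theorem k15 : out (run ops (ins (take 1 5 0) 1 2 .nil)) = (9005088, 122554310, 0) := by decide +kernel

theorem k16 : out (run ops (ins (take 1 6 0) 1 2 .nil)) = (11137275, 151445534, 0) := by decide +kernel

theorem k19 : out (run ops (ins (take 1 9 0) 1 2 .nil)) = (11679610, 157762002, 0) := by decide +kernel

theorem k46 : out (run ops (ins (take 4 6 0) 1 2 .nil)) = (9005088, 122554310, 0) := by decide +kernel

theorem k49 : out (run ops (ins (take 4 9 0) 1 2 .nil)) = (10001736, 134906120, 0) := by decide +kernel

end Pool.Agent.H.MPd417b4
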