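import Pool.Agent.H.MP_d417b4_co.D
import Pool.Agent.H.MP_d417b4_co.K

set_option autoImplicit false
set_option maxHeartbeats 400000

namespace Pool.Agent.H.MPd417b4

open Finset SimpleGraph

noncomputable def NN (H : SimpleGraph (Fin 15)) : ℕ := ∑ k ∈ Icc 1 15, sk H k

noncomputable def SS (H : SimpleGraph (Fin 15)) : ℕ := ∑ k ∈ Icc 1 15, k * sk H k

theorem NS {E : Finset (ℕ × ℕ)} (hE : ∀ e ∈ E, e.1 < e.2 ∧ e.2 < 15) :
    NN (gr E) = 15 + val 1 0 E 0 1 1 ∧ SS (gr E) = 15 + val 0 1 E 0 1 1 := by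
  have h1 := count hE 1 0
  have h2 := count hE 0 1
  simp only [Nat.zero_mul, Nat.add_zero, Nat.one_mul, Nat.zero_add, Nat.mul_one] at h1 h2
  exact ⟨h1, h2⟩

theorem gr_insert (E : Finset (ℕ × ℕ)) (u v : Fin 15) :
    gr E ⊔ edge u v = gr (insert (u.val, v.val) E) := by
  ext a b
  simp only [sup_adj, edge_adj, gr, mem_insert, Prod.mk.injEq, Fin.val_inj]
  tauto

theorem gen (R : List (ℕ × ℕ)) (hR : okR R) (hE : ∀ e ∈ rem R, e.1 < e.2 ∧ e.2 < 15)
    {a0 b0 : ℕ} (h0 : out (run R (ins 0 1 1 .nil)) = (a0, b0, 0)) :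
    (NN (gr (rem R)) = 15 + a0 ∧ SS (gr (rem R)) = 15 + b0) ∧
    ∀ (u v : Fin 15) (a b : ℕ), u < v → (u.val, v.val) ∉ rem R →
      out (run R (ins (take u v 0) 1 2 .nil)) = (a, b, 0) →
      NN (gr (rem R) ⊔ edge u v) = 15 + a0 + a ∧ SS (gr (rem R) ⊔ edge u v) = 15 + b0 + b := by
  have v0 := fun l m => val_ops l m 0 1 1 a0 b0 R hR h0
  constructor
  · rw [(NS hE).1, (NS hE).2, v0, v0]; omega
  · intro u v a b huv he h
    have hE' : ∀ e ∈ insert (u.val, v.val) (rem R), e.1 < e.2 ∧ e.2 < 15 := by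
      intro e k
      rcases mem_insert.1 k with rfl | k
      · exact ⟨huv, v.2⟩
      · exact hE e k
    have v1 := fun l m => val_ops l m _ 1 2 a b R hR h
    have vi := fun l m => val_insert l m (rem R) u v 0 1 1 u.2 v.2
      (fun e k => ⟨(hE e k).1.trans (hE e k).2, (hE e k).2⟩) he
    have hn : ¬ ((0 : ℕ) = 16 ^ 15 ∨ lab 0 u = lab 0 v) := by
      rw [lab_zero, lab_zero]
      have : u.val < v.val := huv
      omega
    rw [gr_insert, (NS hE').1, (NS hE').2, vi, vi, if_neg hn, if_neg hn, v0, v0, v1, v1]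
    omega

def G0 : SimpleGraph (Fin 15) := gr (rem ops)

def ab (a b : ℕ) : Bool :=
  bif Nat.beq (a / 5) (b / 5) then !Nat.beq a b && !(Nat.beq ((a % 5) * (b % 5)) 0 && Nat.beq ((a + b) % 5) 4 && Nat.beq ((a % 5) % 4) 0)
  else (Nat.beq (a % 5) 4 && Nat.beq ((a + 1) % 15) b) || (Nat.beq (b % 5) 4 && Nat.beq ((b + 1) % 15) a)

theorem mem_ab : ∀ a b : Fin 15,
    (a ≠ b ∧ ((a.val, b.val) ∈ rem ops ∨ (b.val, a.val) ∈ rem ops)) ↔ ab a b = true := by
  decide +kernel

theorem adj_ab (a b : Fin 15) : G0.Adj a b ↔ ab a b = true := mem_ab a b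

theorem hE0 : ∀ e ∈ rem ops, e.1 < e.2 ∧ e.2 < 15 := by decide +kernel

def Bad (u v : Fin 15) : Prop := SS (G0 ⊔ edge u v) * NN G0 < SS G0 * NN (G0 ⊔ edge u v)

theorem bad_of (u v : Fin 15) (a b : ℕ) (huv : u < v) (hab : ab u v = false)
    (h : out (run ops (ins (take u v 0) 1 2 .nil)) = (a, b, 0))
    (k : b * 7831428 < 106725798 * a) : Bad u v := by
  obtain ⟨⟨g1, g2⟩, g3⟩ := gen ops ok_ops hE0 k0
  obtain ⟨g4, g5⟩ := g3 u v a b huv (fun m => by
    have := (adj_ab u v).1 ⟨huv.ne, Or.inl m⟩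
    rw [hab] at this
    exact Bool.false_ne_true this) h
  unfold Bad G0
  rw [g1, g2, g4, g5, show 15 + 7831413 = 7831428 by norm_num,
    show 15 + 106725783 = 106725798 by norm_num, Nat.add_mul, Nat.mul_add]
  exact Nat.add_lt_add_left k _

def reps : List (Fin 15 × Fin 15) :=
  [(0, 4), (0, 5), (0, 6), (0, 9), (1, 5), (1, 6), (1, 9), (4, 6), (4, 9)]

theorem bad_reps : ∀ e ∈ reps, Bad e.1 e.2 := by
  intro e he
  simp only [reps, List.mem_cons, List.not_mem_nil, or_false] at he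
  rcases he with rfl | rfl | rfl | rfl | rfl | rfl | rfl | rfl | rfl
  · exact bad_of _ _ _ _ (by decide) (by decide +kernel) k04 (by norm_num)
  · exact bad_of _ _ _ _ (by decide) (by decide +kernel) k05 (by norm_num)
  · exact bad_of _ _ _ _ (by decide) (by decide +kernel) k06 (by norm_num)
  · exact bad_of _ _ _ _ (by decide) (by decide +kernel) k09 (by norm_num)
  · exact bad_of _ _ _ _ (by decide) (by decide +kernel) k15 (by norm_num)
  · exact bad_of _ _ _ _ (by decide) (by decide +kernel) k16 (by norm_num)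
  · exact bad_of _ _ _ _ (by decide) (by decide +kernel) k19 (by norm_num)
  · exact bad_of _ _ _ _ (by decide) (by decide +kernel) k46 (by norm_num)
  · exact bad_of _ _ _ _ (by decide) (by decide +kernel) k49 (by norm_num)

def sgn (r a b x : ℕ) : ℕ :=
  frc ((x + 5 * r) % 15) fun y =>
    bif Nat.ble 1 y && Nat.ble y 3 then 1 + (y - 1 + a) % 3
    else bif Nat.ble 6 y && Nat.ble y 8 then 6 + (y - 6 + b) % 3 else y

def sg (r a b : Fin 3) (x : Fin 15) : Fin 15 := fn (sgn r a b x)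

theorem sg_inj : ∀ r a b : Fin 3, ∀ x y : Fin 15, sg r a b x = sg r a b y → x = y := by
  decide +kernel

theorem sg_adj : ∀ r a b : Fin 3, ∀ x y : Fin 15, ab (sg r a b x) (sg r a b y) = ab x y := by
  decide +kernel

theorem sg_cover : ∀ u v : Fin 15, u ≠ v → ab u v = false → ∃ r a b : Fin 3,
    (sg r a b u, sg r a b v) ∈ reps ∨ (sg r a b v, sg r a b u) ∈ reps := by
  decide +kernel

theorem bad_symm {u v : Fin 15} (h : Bad u v) : Bad v u := by
  unfold Bad at h ⊢
  rwa [edge_comm]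

theorem bad_sg (r a b : Fin 3) (u v : Fin 15) (h : Bad (sg r a b u) (sg r a b v)) : Bad u v := by
  have hi : Function.Injective (sg r a b) := sg_inj r a b
  have f : (G0 ⊔ edge u v) ≃g (G0 ⊔ edge (sg r a b u) (sg r a b v)) :=
    { toEquiv := Equiv.ofBijective _ hi.bijective_of_finite
      map_rel_iff' := by
        intro x y
        simp only [Equiv.ofBijective_apply, sup_adj, edge_adj, adj_ab, sg_adj, ne_eq, hi.eq_iff] }
  unfold Bad SS NN at h ⊢
  simp only [sk_iso f]
  exact h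

theorem bad_all (u v : Fin 15) (h : u ≠ v) (k : ¬ G0.Adj u v) : Bad u v := by
  rw [adj_ab, Bool.not_eq_true] at k
  obtain ⟨r, a, b, m | m⟩ := sg_cover u v h k
  · have := bad_reps _ m
    dsimp only at this
    exact bad_sg r a b u v this
  · have := bad_reps _ m
    dsimp only at this
    exact bad_symm (bad_sg r a b v u this)

theorem conn : G0.Connected := by
  have k : ∀ v : Fin 15, v ≠ 0 → ∃ w, w < v ∧ ab w v = true := by decide +kernel
  have r : ∀ v : Fin 15, G0.Reachable 0 v := by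
    intro v
    induction v using WellFoundedLT.induction with
    | _ v ih =>
      by_cases h : v = 0
      · rw [h]
      · obtain ⟨w, h1, h2⟩ := k v h
        exact (ih w h1).trans ((adj_ab w v).2 h2).reachable
  exact ⟨fun a b => (r a).symm.trans (r b)⟩

theorem ne_top : G0 ≠ ⊤ := fun h => by
  have : G0.Adj 0 4 := by rw [h]; decide
  rw [adj_ab] at this
  exact absurd this (by decide)

end Pool.Agent.H.MPd417b4
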